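import Mathlib

/-!
# Places with values in an algebraically closed field of constants

`L` is an extension of the algebraically closed field `L0`, `B0` a subalgebra of `L` and
`φ : B0 → L0` an `L0`-algebra homomorphism.  There is a valuation ring `V` of `L` that contains
`B0`, in which `b - φ b` is a nonunit for every `b ∈ B0`, and such that every element of `V` is
congruent to a constant.
-/

open Polynomial

namespace PiP

variable {L0 L : Type*} [Field L0] [Field L] [Algebra L0 L]

/-- Graph-like subalgebras: those which are graphs of functions on their first projection. -/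
def GoodSub (L0 L : Type*) [Field L0] [Field L] [Algebra L0 L] : Set (Subalgebra L0 (L × L0)) :=
  {G | ∀ y : L0, ((0 : L), y) ∈ G → y = 0}

theorem exists_maximal_goodSub (G0 : Subalgebra L0 (L × L0)) (h0 : G0 ∈ GoodSub L0 L) :
    ∃ G, G0 ≤ G ∧ Maximal (· ∈ GoodSub L0 L) G := by
  refine zorn_le_nonempty₀ _ ?_ G0 h0
  intro c hc hch y hy
  have inst : Nonempty c := ⟨⟨y, hy⟩⟩
  have hdir : Directed (· ≤ ·) (fun i : c => (i : Subalgebra L0 (L × L0))) := hch.directed
  refine ⟨⨆ i : c, (i : Subalgebra L0 (L × L0)), ?_, ?_⟩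
  · intro z hz
    have h1 : ((0 : L), z) ∈ ((⨆ i : c, (i : Subalgebra L0 (L × L0)) : Subalgebra L0 (L × L0)) :
        Set (L × L0)) := hz
    rw [Subalgebra.coe_iSup_of_directed hdir, Set.mem_iUnion] at h1
    obtain ⟨i, hi⟩ := h1
    exact hc i.2 z hi
  · intro z hz
    exact le_iSup (fun i : c => (i : Subalgebra L0 (L × L0))) ⟨z, hz⟩

theorem exists_place [IsAlgClosed L0] (B0 : Subalgebra L0 L) (φ : B0 →ₐ[L0] L0) :
    ∃ V : ValuationSubring L, (∀ a : L0, algebraMap L0 L a ∈ V) ∧ (∀ b ∈ B0, b ∈ V) ∧
      (∀ b : B0, V.valuation ((b : L) - algebraMap L0 L (φ b)) < 1) ∧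
      ∀ x ∈ V, ∃ a : L0, V.valuation (x - algebraMap L0 L a) < 1 := by
  classical
  obtain ⟨G, hG0, hGmax⟩ := exists_maximal_goodSub
    ((B0.val.prod φ).range) (by
      rintro y ⟨b, hb⟩
      have h1 : (b : L) = 0 := congrArg Prod.fst hb
      have h2 : φ b = y := congrArg Prod.snd hb
      have h3 : b = 0 := Subtype.ext h1
      rw [← h2, h3, map_zero])
  have hG : ∀ y : L0, ((0 : L), y) ∈ G → y = 0 := hGmax.1
  -- the first projection
  let A : Subring L := (G.map (AlgHom.fst L0 L L0)).toSubring
  have memA : ∀ b : L, b ∈ A ↔ ∃ y : L0, (b, y) ∈ G := by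
    intro b
    constructor
    · rintro ⟨g, hg, hgb⟩
      refine ⟨g.2, ?_⟩
      have : g.1 = b := hgb
      rw [← this]
      exact hg
    · rintro ⟨y, hy⟩
      exact ⟨(b, y), hy, rfl⟩
  have hconst : ∀ a : L0, (algebraMap L0 L a, a) ∈ G := fun a => G.algebraMap_mem a
  let I : Ideal A :=
    { carrier := {b | ((b : L), (0 : L0)) ∈ G}
      add_mem' := by
        intro a b ha hb
        have := G.add_mem ha hb
        simpa using this
      zero_mem' := by
        have := G.zero_mem
        exact this
      smul_mem' := by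
        rintro ⟨c, hc⟩ ⟨b, hb⟩ hb0
        obtain ⟨y, hy⟩ := (memA c).1 hc
        have := G.mul_mem hy hb0
        simpa using this }
  have memI : ∀ b : A, b ∈ I ↔ ((b : L), (0 : L0)) ∈ G := fun b => Iff.rfl
  have hI : I ≠ ⊤ := by
    intro h
    have h1 : (1 : A) ∈ I := by rw [h]; trivial
    have h2 : ((1 : L), (0 : L0)) ∈ G := h1
    have h3 := G.sub_mem G.one_mem h2
    have h4 : ((0 : L), (1 : L0)) ∈ G := by
      convert h3 using 1
      ext <;> simp
    exact one_ne_zero (hG 1 h4)
  obtain ⟨V, hAV, hIV⟩ := Ideal.image_subset_nonunits_valuationSubring I hI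
  have hV1 : ∀ b y, (b, y) ∈ G → b ∈ V := fun b y h => hAV ((memA b).2 ⟨y, h⟩)
  have hV0 : ∀ b, (b, (0 : L0)) ∈ G → V.valuation b < 1 := by
    intro b hb
    have h1 : b ∈ A := (memA b).2 ⟨0, hb⟩
    have h2 : b ∈ V.nonunits := hIV ⟨⟨b, h1⟩, hb, rfl⟩
    exact V.mem_nonunits_iff.1 h2
  have hV2 : ∀ b y, (b, y) ∈ G → V.valuation (b - algebraMap L0 L y) < 1 := by
    intro b y h
    apply hV0
    have := G.sub_mem h (hconst y)
    simpa using this
  have hVc : ∀ a : L0, algebraMap L0 L a ∈ V := fun a => hV1 _ _ (hconst a)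
  have hVu : ∀ a : L0, a ≠ 0 → V.valuation (algebraMap L0 L a) = 1 := by
    intro a ha
    have h1 : V.valuation (algebraMap L0 L a) ≤ 1 := (V.valuation_le_one_iff _).2 (hVc a)
    have h2 : V.valuation (algebraMap L0 L a⁻¹) ≤ 1 := (V.valuation_le_one_iff _).2 (hVc a⁻¹)
    rw [map_inv₀, map_inv₀] at h2
    have h3 : V.valuation (algebraMap L0 L a) ≠ 0 := by
      rw [Valuation.ne_zero_iff]
      exact (map_ne_zero (algebraMap L0 L)).2 ha
    exact le_antisymm h1 ((inv_le_one₀ (zero_lt_iff.2 h3)).1 h2)
  refine ⟨V, hVc, ?_, ?_, ?_⟩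
  · intro b hb
    exact hV1 b (φ ⟨b, hb⟩) (hG0 ⟨⟨b, hb⟩, rfl⟩)
  · intro b
    exact hV2 b (φ b) (hG0 ⟨b, rfl⟩)
  · intro x hx
    -- extend `G` by `(x, c)`
    let ψ : G[X] →ₐ[L0] L := Polynomial.aevalTower ((AlgHom.fst L0 L L0).comp G.val) x
    let θ : G[X] →ₐ[L0] L0[X] := Polynomial.mapAlgHom ((AlgHom.snd L0 L L0).comp G.val)
    have hθs : Function.Surjective θ := by
      intro q
      refine ⟨q.map (algebraMap L0 G), ?_⟩
      change Polynomial.map _ (Polynomial.map _ q) = q
      rw [Polynomial.map_map]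
      have h1 : (((AlgHom.snd L0 L L0).comp G.val : G →ₐ[L0] L0) : G →+* L0).comp
          (algebraMap L0 G) = RingHom.id L0 := by
        ext a
        rfl
      rw [show ((AlgHom.snd L0 L L0).comp G.val : G →ₐ[L0] L0).toRingHom.comp
          (algebraMap L0 G) = RingHom.id L0 from h1, Polynomial.map_id]
    let J : Ideal L0[X] := (RingHom.ker ψ.toRingHom).map θ.toRingHom
    have memJ : ∀ q, q ∈ J ↔ ∃ p : G[X], ψ p = 0 ∧ θ p = q := by
      intro q
      rw [Ideal.mem_map_iff_of_surjective θ.toRingHom hθs]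
      rfl
    have hJ : J ≠ ⊤ := by
      intro h
      have h1 : (1 : L0[X]) ∈ J := by rw [h]; trivial
      obtain ⟨p, hp0, hp1⟩ := (memJ 1).1 h1
      have hc : ∀ i, (p.coeff i : L × L0).2 = (1 : L0[X]).coeff i := by
        intro i
        rw [← hp1]
        change _ = (Polynomial.map _ p).coeff i
        rw [Polynomial.coeff_map]
        rfl
      have hsum : ψ p = ∑ i ∈ Finset.range (p.natDegree + 1), (p.coeff i : L × L0).1 * x ^ i := by
        change Polynomial.eval₂ _ x p = _
        rw [Polynomial.eval₂_eq_sum_range]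
        rfl
      rw [Finset.sum_range_succ'] at hsum
      rw [hp0, pow_zero, mul_one] at hsum
      have hgt : V.valuation (∑ i ∈ Finset.range p.natDegree,
          (p.coeff (i + 1) : L × L0).1 * x ^ (i + 1)) < 1 := by
        apply Valuation.map_sum_lt _ one_ne_zero
        intro i _
        have h3 : (p.coeff (i + 1) : L × L0).2 = 0 := by
          rw [hc, Polynomial.coeff_one]
          simp
        have h4 : ((p.coeff (i + 1) : L × L0).1, (0 : L0)) ∈ G := by
          rw [← h3]
          exact (p.coeff (i + 1)).2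
        rw [map_mul]
        calc V.valuation (p.coeff (i + 1) : L × L0).1 * V.valuation (x ^ (i + 1))
            ≤ V.valuation (p.coeff (i + 1) : L × L0).1 * 1 := by
              gcongr
              exact (V.valuation_le_one_iff _).2 (pow_mem hx _)
          _ < 1 := by
              rw [mul_one]
              exact hV0 _ h4
      have h5 : ((p.coeff 0 : L × L0).1, (1 : L0)) ∈ G := by
        have h6 : (p.coeff 0 : L × L0).2 = 1 := by
          rw [hc, Polynomial.coeff_one]
          simp
        rw [← h6]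
        exact (p.coeff 0).2
      have h7 := hV2 _ _ h5
      rw [map_one] at h7
      have h8 : (1 : L) = -((p.coeff 0 : L × L0).1 - 1) -
          (∑ i ∈ Finset.range p.natDegree, (p.coeff (i + 1) : L × L0).1 * x ^ (i + 1)) := by
        linear_combination -hsum
      have h9 : V.valuation (1 : L) < 1 := by
        rw [h8]
        apply Valuation.map_sub_lt _ _ hgt
        rwa [Valuation.map_neg]
      rw [map_one] at h9
      exact lt_irrefl _ h9
    obtain ⟨c, hc⟩ : ∃ c : L0, ∀ q ∈ J, q.eval c = 0 := by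
      have hgen := Ideal.span_singleton_generator J
      by_cases hz : Submodule.IsPrincipal.generator J = 0
      · refine ⟨0, fun q hq => ?_⟩
        rw [← hgen, hz, Ideal.mem_span_singleton, zero_dvd_iff] at hq
        rw [hq, Polynomial.eval_zero]
      · have hdeg : (Submodule.IsPrincipal.generator J).degree ≠ 0 := by
          intro h
          apply hJ
          rw [← hgen, Ideal.span_singleton_eq_top]
          exact Polynomial.isUnit_iff_degree_eq_zero.2 h
        obtain ⟨c, hc⟩ := IsAlgClosed.exists_root _ hdeg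
        refine ⟨c, fun q hq => ?_⟩
        rw [← hgen, Ideal.mem_span_singleton] at hq
        exact Polynomial.eval_eq_zero_of_dvd_of_eval_eq_zero hq hc
    let χ : G[X] →ₐ[L0] L × L0 := ψ.prod ((Polynomial.aeval c).comp θ)
    have hle : G ≤ χ.range := by
      intro g hg
      refine ⟨Polynomial.C ⟨g, hg⟩, ?_⟩
      apply Prod.ext
      · change Polynomial.eval₂ _ x (Polynomial.C _) = _
        rw [Polynomial.eval₂_C]
        rfl
      · change (Polynomial.aeval c) (Polynomial.map _ (Polynomial.C _)) = _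
        rw [Polynomial.map_C, Polynomial.aeval_C]
        rfl
    have hgood : χ.range ∈ GoodSub L0 L := by
      rintro y ⟨p, hp⟩
      have h1 : ψ p = 0 := congrArg Prod.fst hp
      have h2 : (Polynomial.aeval c) (θ p) = y := congrArg Prod.snd hp
      rw [← h2, Polynomial.coe_aeval_eq_eval]
      exact hc _ ((memJ _).2 ⟨p, h1, rfl⟩)
    have hxc : (x, c) ∈ G := by
      apply hGmax.2 hgood hle
      refine ⟨Polynomial.X, ?_⟩
      apply Prod.ext
      · change Polynomial.eval₂ _ x Polynomial.X = _
        rw [Polynomial.eval₂_X]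
      · change (Polynomial.aeval c) (Polynomial.map _ Polynomial.X) = _
        rw [Polynomial.map_X, Polynomial.aeval_X]
    exact ⟨c, hV2 _ _ hxc⟩

end PiP
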