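import Mathlib

/-!
# Codimension is additive on nonzero ideals of a Dedekind domain over a field
-/

namespace PiP

variable {L B : Type*} [Field L] [CommRing B] [IsDedekindDomain B] [Algebra L B]

theorem exact_quotient_mul (I J : Ideal B) (hI : I ≠ ⊥) (hJ : J ≠ ⊥) :
    ∃ f : (B ⧸ J) →ₗ[L] (B ⧸ I * J), Function.Injective f ∧
      LinearMap.range f =
        LinearMap.ker (Ideal.Quotient.factorₐ L (Ideal.mul_le_left : I * J ≤ I)).toLinearMap := by
  have hle : I * J ≤ I := Ideal.mul_le_left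
  have hne : I * J ≠ ⊥ := mul_ne_zero hI hJ
  obtain ⟨a, ha⟩ := IsDedekindDomain.exists_sup_span_eq hle hne
  have haI : a ∈ I := by
    rw [← ha]
    exact Ideal.mem_sup_right (Ideal.mem_span_singleton_self a)
  have hmap : J ≤ Submodule.comap (LinearMap.mulLeft B a) (I * J) := by
    intro x hx
    exact Ideal.mul_mem_mul haI hx
  let f0 : (B ⧸ J) →ₗ[B] (B ⧸ I * J) := Submodule.mapQ J (I * J) (LinearMap.mulLeft B a) hmap
  have hf0 : ∀ x : B, f0 (Ideal.Quotient.mk J x) = Ideal.Quotient.mk (I * J) (a * x) :=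
    fun x => rfl
  refine ⟨f0.restrictScalars L, ?_, ?_⟩
  · rw [injective_iff_map_eq_zero]
    intro x hx
    obtain ⟨x, rfl⟩ := Ideal.Quotient.mk_surjective x
    have h1 : Ideal.Quotient.mk (I * J) (a * x) = 0 := hx
    rw [Ideal.Quotient.eq_zero_iff_mem] at h1 ⊢
    have h2 : I * Ideal.span {x} ≤ I * J := by
      calc I * Ideal.span {x} = (I * J ⊔ Ideal.span {a}) * Ideal.span {x} := by rw [ha]
        _ = (I * J) * Ideal.span {x} ⊔ Ideal.span {a} * Ideal.span {x} := Ideal.sup_mul _ _ _
        _ ≤ I * J := by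
          refine sup_le Ideal.mul_le_left ?_
          rw [Ideal.span_singleton_mul_span_singleton, Ideal.span_singleton_le_iff_mem]
          exact h1
    rw [← Ideal.dvd_iff_le, mul_dvd_mul_iff_left hI, Ideal.dvd_iff_le] at h2
    exact h2 (Ideal.mem_span_singleton_self x)
  · ext y
    obtain ⟨y, rfl⟩ := Ideal.Quotient.mk_surjective y
    rw [LinearMap.mem_ker]
    have h1 : (Ideal.Quotient.factorₐ L hle).toLinearMap (Ideal.Quotient.mk (I * J) y) =
      Ideal.Quotient.mk I y := rfl
    rw [h1, Ideal.Quotient.eq_zero_iff_mem]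
    constructor
    · rintro ⟨x, hx⟩
      obtain ⟨x, rfl⟩ := Ideal.Quotient.mk_surjective x
      have h2 : Ideal.Quotient.mk (I * J) (a * x) = Ideal.Quotient.mk (I * J) y := hx
      rw [Ideal.Quotient.eq] at h2
      have h3 := I.sub_mem (I.mul_mem_right x haI) (hle h2)
      simpa using h3
    · intro hy
      rw [← ha] at hy
      obtain ⟨z, hz, w, hw, rfl⟩ := Submodule.mem_sup.1 hy
      obtain ⟨x, rfl⟩ := Ideal.mem_span_singleton'.1 hw
      refine ⟨Ideal.Quotient.mk J x, ?_⟩
      change Ideal.Quotient.mk (I * J) (a * x) = _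
      rw [Ideal.Quotient.eq]
      have : a * x - (z + x * a) = -z := by ring
      rw [this]
      exact (I * J).neg_mem hz

theorem finite_quotient_mul (I J : Ideal B) (hI : I ≠ ⊥) (hJ : J ≠ ⊥)
    [FiniteDimensional L (B ⧸ I)] [FiniteDimensional L (B ⧸ J)] :
    FiniteDimensional L (B ⧸ I * J) := by
  obtain ⟨f, _, hf⟩ := exact_quotient_mul (L := L) I J hI hJ
  set g := (Ideal.Quotient.factorₐ L (Ideal.mul_le_left : I * J ≤ I)).toLinearMap with hg
  have h1 : FiniteDimensional L (LinearMap.ker g) := by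
    rw [← hf]
    infer_instance
  have h2 : FiniteDimensional L ((B ⧸ I * J) ⧸ LinearMap.ker g) :=
    Module.Finite.equiv g.quotKerEquivRange.symm
  exact Module.Finite.of_submodule_quotient (LinearMap.ker g)

theorem finrank_quotient_mul (I J : Ideal B) (hI : I ≠ ⊥) (hJ : J ≠ ⊥)
    [FiniteDimensional L (B ⧸ I)] [FiniteDimensional L (B ⧸ J)] :
    Module.finrank L (B ⧸ I * J) = Module.finrank L (B ⧸ I) + Module.finrank L (B ⧸ J) := by
  obtain ⟨f, hfi, hf⟩ := exact_quotient_mul (L := L) I J hI hJ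
  have h0 := finite_quotient_mul (L := L) I J hI hJ
  set g := (Ideal.Quotient.factorₐ L (Ideal.mul_le_left : I * J ≤ I)).toLinearMap with hg
  have h1 := LinearMap.finrank_range_add_finrank_ker g
  have h2 : LinearMap.range g = ⊤ := by
    rw [LinearMap.range_eq_top]
    exact Ideal.Quotient.factor_surjective (Ideal.mul_le_left : I * J ≤ I)
  rw [h2, finrank_top, ← hf, LinearMap.finrank_range_of_inj hfi] at h1
  exact h1.symm

end PiP
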