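import Mathlib
import Pool.Agent.Helper99.PiP.Place

/-!
# Relative algebraic closures, transcendence degree count, places sending an element to infinity
-/

open Polynomial

namespace PiP

section algCl

variable (k : Type*) {L : Type*} [Field k] [Field L] [Algebra k L]

/-- The algebraic closure of `k(T)` in `L`. -/
noncomputable def algCl (T : Set L) : IntermediateField k L :=
  (algebraicClosure (IntermediateField.adjoin k T) L).restrictScalars k

variable {k}

theorem mem_algCl {T : Set L} {x : L} :
    x ∈ algCl k T ↔ IsAlgebraic (Algebra.adjoin k T) x := by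
  rw [← IntermediateField.isAlgebraic_adjoin_iff]
  exact mem_algebraicClosure_iff

theorem mem_algCl' {T : Set L} {x : L} :
    x ∈ algCl k T ↔ IsAlgebraic (IntermediateField.adjoin k T) x :=
  mem_algebraicClosure_iff

theorem subset_algCl (T : Set L) : T ⊆ algCl k T := by
  intro x hx
  change x ∈ algCl k T
  rw [mem_algCl']
  exact isAlgebraic_algebraMap
    (⟨x, IntermediateField.subset_adjoin k T hx⟩ : IntermediateField.adjoin k T)

theorem mem_algCl_of_isAlgebraic {T : Set L} {x : L} (hx : IsAlgebraic (algCl k T) x) :
    x ∈ algCl k T := by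
  rw [mem_algCl']
  have h1 : IsAlgebraic (algebraicClosure (IntermediateField.adjoin k T) L) x := hx
  exact h1.restrictScalars (IntermediateField.adjoin k T)

theorem mem_of_algebraic_algCl_top {T : Set L} {x : L} {E : IntermediateField k L}
    (hE : E ≤ algCl k T) (hx : IsAlgebraic E x) : x ∈ algCl k T := by
  apply mem_algCl_of_isAlgebraic
  let _ : Algebra E (algCl k T) := (IntermediateField.inclusion hE).toAlgebra
  have _ : IsScalarTower E (algCl k T) L := IsScalarTower.of_algebraMap_eq (fun y => rfl)
  exact hx.extendScalars (IntermediateField.inclusion hE).injective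

theorem algCl_le {T : Set L} {E : IntermediateField k L} (hT : T ⊆ E)
    (hE : ∀ x, IsAlgebraic E x → x ∈ E) : algCl k T ≤ E := by
  intro x hx
  rw [mem_algCl'] at hx
  apply hE
  have h1 : IntermediateField.adjoin k T ≤ E := IntermediateField.adjoin_le_iff.2 hT
  let _ : Algebra (IntermediateField.adjoin k T) E := (IntermediateField.inclusion h1).toAlgebra
  have _ : IsScalarTower (IntermediateField.adjoin k T) E L :=
    IsScalarTower.of_algebraMap_eq (fun y => rfl)
  exact hx.extendScalars (IntermediateField.inclusion h1).injective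

theorem algCl_mono {S T : Set L} (h : S ⊆ algCl k T) : algCl k S ≤ algCl k T :=
  algCl_le h fun _ hx => mem_algCl_of_isAlgebraic hx

instance isAlgClosed_algCl [IsAlgClosed L] (T : Set L) : IsAlgClosed (algCl k T) := by
  have h : IsAlgClosure (IntermediateField.adjoin k T)
    (algebraicClosure (IntermediateField.adjoin k T) L) := inferInstance
  exact h.isAlgClosed

theorem card_le_of_algebraicIndependent {ι : Type*} [Fintype ι] {v : ι → L}
    (hv : AlgebraicIndependent k v) {T : Finset L} (h : ∀ i, v i ∈ algCl k (T : Set L)) :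
    Fintype.card ι ≤ T.card := by
  classical
  have h1 : (AlgebraicIndependent.matroid k L).Indep (Set.range v) := by
    rw [AlgebraicIndependent.matroid_indep_iff]
    exact hv.to_subtype_range
  have h2 : Set.range v ⊆ (AlgebraicIndependent.matroid k L).closure (T : Set L) := by
    rintro _ ⟨i, rfl⟩
    rw [AlgebraicIndependent.matroid_closure_eq]
    exact mem_algCl.1 (h i)
  have h3 := h1.encard_le_eRk_of_subset h2
  rw [Matroid.eRk_closure_eq] at h3
  have h4 := h3.trans (Matroid.eRk_le_encard _ _)
  rw [Set.encard_coe_eq_coe_finsetCard] at h4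
  have h5 : (Set.range v).encard = (Fintype.card ι : ℕ∞) := by
    rw [← Set.image_univ, hv.injective.encard_image, Set.encard_univ]
    simp
  rw [h5] at h4
  exact_mod_cast h4

end algCl

section place

variable {L0 L : Type*} [Field L0] [Field L] [Algebra L0 L]

/-- For `x` transcendental over the algebraically closed field `L0` there is a place of `L` with
values in `L0` at which `x` is infinite. -/
theorem exists_place_not_mem [IsAlgClosed L0] {x : L} (hx : Transcendental L0 x) :
    ∃ V : ValuationSubring L, (∀ a : L0, algebraMap L0 L a ∈ V) ∧ x ∉ V ∧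
      ∀ y ∈ V, ∃ a : L0, V.valuation (y - algebraMap L0 L a) < 1 := by
  classical
  have hx0 : x ≠ 0 := by
    rintro rfl
    exact hx isAlgebraic_zero
  have hx' : Transcendental L0 x⁻¹ := by
    intro h
    apply hx
    have := h.inv
    rwa [inv_inv] at this
  have hinj : Function.Injective (aeval x⁻¹ : L0[X] →ₐ[L0] L) :=
    transcendental_iff_injective.1 hx'
  let e := AlgEquiv.ofInjective (aeval x⁻¹ : L0[X] →ₐ[L0] L) hinj
  let φ : (aeval x⁻¹ : L0[X] →ₐ[L0] L).range →ₐ[L0] L0 :=
    (aeval (0 : L0)).comp e.symm.toAlgHom
  obtain ⟨V, h1, _, h3, h4⟩ := exists_place _ φ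
  refine ⟨V, h1, ?_, h4⟩
  have h5 : φ (e X) = 0 := by
    change aeval (0 : L0) (e.symm (e X)) = 0
    rw [AlgEquiv.symm_apply_apply, aeval_X]
  have h6 := h3 (e X)
  rw [h5, map_zero, sub_zero] at h6
  have h7 : ((e X : (aeval x⁻¹ : L0[X] →ₐ[L0] L).range) : L) = x⁻¹ := by
    change aeval x⁻¹ X = _
    rw [aeval_X]
  rw [h7, map_inv₀] at h6
  intro hmem
  have h8 : V.valuation x ≤ 1 := (V.valuation_le_one_iff _).2 hmem
  have h9 : V.valuation x ≠ 0 := (Valuation.ne_zero_iff _).2 hx0
  exact absurd ((one_le_inv₀ (zero_lt_iff.2 h9)).2 h8) (not_le.2 h6)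

end place

section generic

variable {k A : Type*} [Field k] [CommRing A] [IsDomain A] [Algebra k A]

/-- A point of `A` over an algebraically closed field with prescribed transcendental value
of `u`. -/
theorem exists_point {u : A} (hu : Transcendental k u)
    (hA : (aeval u : k[X] →ₐ[k] A).toRingHom.IsIntegral)
    {L : Type*} [Field L] [Algebra k L] [IsAlgClosed L] {v : L} (hv : Transcendental k v) :
    ∃ η : A →ₐ[k] L, η u = v := by
  classical
  let _ : Algebra k[X] A := (aeval u : k[X] →ₐ[k] A).toAlgebra
  let _ : Algebra k[X] L := (aeval v : k[X] →ₐ[k] L).toAlgebra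
  have hA1 : Algebra.IsIntegral k[X] A := ⟨hA⟩
  have hA2 : Algebra.IsAlgebraic k[X] A := inferInstance
  have h1 : FaithfulSMul k[X] A := (faithfulSMul_iff_algebraMap_injective _ _).2
    (transcendental_iff_injective.1 hu)
  have h2 : FaithfulSMul k[X] L := (faithfulSMul_iff_algebraMap_injective _ _).2
    (transcendental_iff_injective.1 hv)
  have h3 : Module.IsTorsionFree k[X] A := inferInstance
  have h4 : Module.IsTorsionFree k[X] L := inferInstance
  let f : A →ₐ[k[X]] L := IsAlgClosed.lift
  have hf : ∀ p : k[X], f (aeval u p) = aeval v p := fun p => f.commutes p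
  refine ⟨AlgHom.mk' f.toRingHom ?_, ?_⟩
  · intro c x
    have h5 := hf (C c)
    rw [aeval_C, aeval_C] at h5
    rw [Algebra.smul_def, Algebra.smul_def, map_mul]
    exact congrArg (· * f x) h5
  · have h5 := hf X
    rw [aeval_X, aeval_X] at h5
    exact h5

end generic

section generic2

universe u

variable {k A : Type u} [Field k] [CommRing A] [IsDomain A] [Algebra k A]

/-- Independent generic points. -/
theorem exists_generic_points {u : A} (hu : Transcendental k u)
    (hA : (aeval u : k[X] →ₐ[k] A).toRingHom.IsIntegral) (m : ℕ) :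
    ∃ (L : Type u) (_ : Field L) (_ : Algebra k L), IsAlgClosed L ∧
      ∃ η : Fin m → A →ₐ[k] L, AlgebraicIndependent k (fun i => η i u) := by
  classical
  let K := FractionRing (MvPolynomial (Fin m) k)
  let L := AlgebraicClosure K
  let ι : MvPolynomial (Fin m) k →ₐ[k] L :=
    (IsScalarTower.toAlgHom k K L).comp (IsScalarTower.toAlgHom k (MvPolynomial (Fin m) k) K)
  have hι : Function.Injective ι :=
    (algebraMap K L).injective.comp (IsFractionRing.injective (MvPolynomial (Fin m) k) K)
  have hind : AlgebraicIndependent k (fun i : Fin m => ι (MvPolynomial.X i)) := by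
    have h := (MvPolynomial.algebraicIndependent_X (Fin m) k).map' hι
    exact h
  have hex : ∀ i : Fin m, ∃ η : A →ₐ[k] L, η u = ι (MvPolynomial.X i) := fun i =>
    exists_point hu hA (hind.transcendental i)
  choose η hη using hex
  refine ⟨L, inferInstance, inferInstance, inferInstance, η, ?_⟩
  simp_rw [hη]
  exact hind

end generic2

end PiP
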