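import Mathlib
import Pool.Agent.Helper99.PiP.Gen

/-!
# Divisibility of the class of the generic point

`DivData k A` collects what is used about the class groups of the curves `A ⊗ M`, `M` an
extension of `k`.  The main theorem `DivData.exists_root`: for every `n ≥ 1` the class of the
generic point is an `n`-th power over the algebraic closure of the function field.
-/

universe u

open Polynomial

namespace PiP

/-- A place of `N` with values in `M`, `f : M → N` the inclusion of constants. -/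
structure IsPlaceOver {k M N : Type u} [Field k] [Field M] [Algebra k M] [Field N] [Algebra k N]
    (f : M →ₐ[k] N) (V : ValuationSubring N) : Prop where
  const_mem : ∀ a : M, f a ∈ V
  exists_const : ∀ x ∈ V, ∃ a : M, V.valuation (x - f a) < 1

/-- Class groups of the curves `A ⊗ M`. -/
structure DivData (k A : Type u) [Field k] [CommRing A] [Algebra k A] (g : ℕ) (u : A) where
  C : ∀ (M : Type u) [Field M] [Algebra k M], Type u
  grp : ∀ (M : Type u) [Field M] [Algebra k M], CommGroup (C M)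
  pt : ∀ {M : Type u} [Field M] [Algebra k M], (A →ₐ[k] M) → C M
  bc : ∀ {M N : Type u} [Field M] [Algebra k M] [Field N] [Algebra k N]
    (_ : M →ₐ[k] N), C M →* C N
  sp : ∀ {M N : Type u} [Field M] [Algebra k M] [Field N] [Algebra k N]
    {f : M →ₐ[k] N} {V : ValuationSubring N} (_ : IsPlaceOver f V), C N →* C M
  bc_pt : ∀ {M N : Type u} [Field M] [Algebra k M] [Field N] [Algebra k N]
    (f : M →ₐ[k] N) (R : A →ₐ[k] M), bc f (pt R) = pt (f.comp R)
  sp_bc : ∀ {M N : Type u} [Field M] [Algebra k M] [Field N] [Algebra k N]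
    {f : M →ₐ[k] N} {V : ValuationSubring N} (h : IsPlaceOver f V) (x : C M), sp h (bc f x) = x
  sp_pt : ∀ {M N : Type u} [Field M] [Algebra k M] [Field N] [Algebra k N]
    {f : M →ₐ[k] N} {V : ValuationSubring N} (h : IsPlaceOver f V) (R : A →ₐ[k] N),
    R u ∉ V → sp h (pt R) = 1
  rep : ∀ {M : Type u} [Field M] [Algebra k M] [IsAlgClosed M] (x : C M),
    ∃ r ≤ g, ∃ R : Fin r → A →ₐ[k] M, x = ∏ i, pt (R i)
  const : ∀ {M N : Type u} [Field M] [Algebra k M] [Field N] [Algebra k N]
    [IsAlgClosed M] [IsAlgClosed N] (f : M →ₐ[k] N) (n : ℕ) (_ : 0 < n) (x : C N),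
    x ^ n = 1 → ∃ y, x = bc f y
  level : ∀ {M N : Type u} [Field M] [Algebra k M] [Field N] [Algebra k N]
    [IsAlgClosed M] [IsAlgClosed N] (f : M →ₐ[k] N) (x : C M) (m : ℕ) (_ : 3 * g ≤ m)
    (η : Fin m → A →ₐ[k] N), (∏ i, pt (η i)) * bc f x = 1 →
    ∃ T : Finset N, T.card ≤ m - g ∧ ∀ i, η i u ∈ algCl k (Set.range f ∪ (T : Set N))

attribute [instance] DivData.grp

section aux

variable {k A : Type u} [Field k] [CommRing A] [Algebra k A]

theorem point_mem {u : A} (hA : (aeval u : k[X] →ₐ[k] A).toRingHom.IsIntegral)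
    {L : Type u} [Field L] [Algebra k L] {T : Set L} (R : A →ₐ[k] L) (hR : R u ∈ algCl k T)
    (a : A) : R a ∈ algCl k T := by
  obtain ⟨P, hP, hPa⟩ := hA a
  apply mem_algCl_of_isAlgebraic
  have hc : ∀ p : k[X], R (aeval u p) ∈ algCl k T := by
    intro p
    have h1 : R (aeval u p) = aeval (R u) p := (Polynomial.aeval_algHom_apply R u p).symm
    have h2 : aeval (R u) p = ((aeval (⟨R u, hR⟩ : algCl k T) p : algCl k T) : L) := by
      have := Polynomial.aeval_algHom_apply (algCl k T).val (⟨R u, hR⟩ : algCl k T) p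
      exact this
    rw [h1, h2]
    exact (aeval (⟨R u, hR⟩ : algCl k T) p).2
  let φ : k[X] →+* algCl k T :=
    ((R.comp (aeval u : k[X] →ₐ[k] A)).codRestrict (algCl k T).toSubalgebra hc).toRingHom
  refine ⟨P.map φ, (hP.map φ).ne_zero, ?_⟩
  rw [Polynomial.aeval_def, Polynomial.eval₂_map]
  have h := congrArg R.toRingHom hPa
  rw [map_zero, Polynomial.hom_eval₂] at h
  exact h

theorem exists_isPlaceOver {M N : Type u} [Field M] [Algebra k M] [Field N] [Algebra k N]
    [IsAlgClosed M] (f : M →ₐ[k] N) : ∃ V, IsPlaceOver f V := by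
  let _ : Algebra M N := f.toAlgebra
  let φ : (⊥ : Subalgebra M N) →ₐ[M] M := (Algebra.botEquiv M N).toAlgHom
  obtain ⟨V, h1, _, _, h4⟩ := exists_place _ φ
  exact ⟨V, h1, h4⟩

theorem exists_isPlaceOver_not_mem {M N : Type u} [Field M] [Algebra k M] [Field N] [Algebra k N]
    [IsAlgClosed M] (f : M →ₐ[k] N) {x : N} (hx : ∀ p : M[X], p.eval₂ f.toRingHom x = 0 → p = 0) :
    ∃ V, IsPlaceOver f V ∧ x ∉ V := by
  let _ : Algebra M N := f.toAlgebra
  have hx' : Transcendental M x := by
    rintro ⟨p, hp, hp0⟩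
    exact hp (hx p hp0)
  obtain ⟨V, h1, h2, h4⟩ := exists_place_not_mem hx'
  exact ⟨V, ⟨h1, h4⟩, h2⟩

/-- A point with transcendental value of `u` is injective. -/
theorem point_injective [IsDomain A] {u : A}
    (hA : (aeval u : k[X] →ₐ[k] A).toRingHom.IsIntegral)
    {L : Type u} [Field L] [Algebra k L] (R : A →ₐ[k] L) (hR : Transcendental k (R u)) :
    Function.Injective R := by
  rw [injective_iff_map_eq_zero]
  intro a ha
  by_contra hne
  let _ : Algebra k[X] A := (aeval u : k[X] →ₐ[k] A).toAlgebra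
  have hA1 : Algebra.IsIntegral k[X] A := ⟨hA⟩
  have h1 : Ideal.comap (algebraMap k[X] A) (RingHom.ker R.toRingHom) ≠ ⊥ := by
    refine Ideal.comap_ne_bot_of_integral_mem (x := a) hne ha (hA a)
  apply h1
  rw [eq_bot_iff]
  intro p hp
  have h2 : R (aeval u p) = 0 := hp
  have h3 : R (aeval u p) = aeval (R u) p := (Polynomial.aeval_algHom_apply R u p).symm
  rw [h3] at h2
  by_contra h4
  exact hR ⟨p, fun h5 => h4 (by rw [h5]; exact Ideal.zero_mem _), h2⟩

/-- Extension of an injective point to an algebraic extension. -/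
theorem exists_extension [IsDomain A] {Ω L : Type u} [Field Ω] [Algebra k Ω] [Field L]
    [Algebra k L] [IsAlgClosed L] (η : A →ₐ[k] Ω) (hη : Function.Injective η)
    (hΩ : ∀ x : Ω, ∃ p : A[X], p ≠ 0 ∧ p.eval₂ η.toRingHom x = 0)
    (R : A →ₐ[k] L) (hR : Function.Injective R) :
    ∃ j : Ω →ₐ[k] L, j.comp η = R := by
  let _ : Algebra A Ω := η.toAlgebra
  let _ : Algebra A L := R.toAlgebra
  have h0 : Algebra.IsAlgebraic A Ω := ⟨fun x => by
    obtain ⟨p, hp, hp0⟩ := hΩ x
    exact ⟨p, hp, hp0⟩⟩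
  have h1 : FaithfulSMul A Ω := (faithfulSMul_iff_algebraMap_injective _ _).2 hη
  have h2 : FaithfulSMul A L := (faithfulSMul_iff_algebraMap_injective _ _).2 hR
  have h3 : Module.IsTorsionFree A Ω := inferInstance
  have h4 : Module.IsTorsionFree A L := inferInstance
  let f : Ω →ₐ[A] L := IsAlgClosed.lift
  have hf : ∀ a : A, f (η a) = R a := fun a => f.commutes a
  refine ⟨AlgHom.mk' f.toRingHom ?_, ?_⟩
  · intro c x
    have h5 := hf (algebraMap k A c)
    rw [η.commutes, R.commutes] at h5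
    rw [Algebra.smul_def, Algebra.smul_def, map_mul]
    exact congrArg (· * f x) h5
  · ext a
    exact hf a

end aux

namespace DivData

variable {k A : Type u} [Field k] [CommRing A] [Algebra k A] {g : ℕ} {u : A}

theorem exists_root [IsDomain A] (D : DivData k A g u) (hu : Transcendental k u)
    (hA : (aeval u : k[X] →ₐ[k] A).toRingHom.IsIntegral) (hg : 1 ≤ g)
    {Ω : Type u} [Field Ω] [Algebra k Ω] [IsAlgClosed Ω] (η : A →ₐ[k] Ω)
    (hη : Function.Injective η)
    (hΩ : ∀ x : Ω, ∃ p : A[X], p ≠ 0 ∧ p.eval₂ η.toRingHom x = 0) (n : ℕ) (hn : 0 < n) :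
    ∃ E : D.C Ω, E ^ n = D.pt η := by
  classical
  obtain ⟨L, _, _, hL, ηs, hind⟩ := exists_generic_points hu hA (3 * g)
  obtain ⟨c, hc⟩ : ∃ c : D.C L, (∏ i, D.pt (ηs i)) * c = 1 := ⟨_, mul_inv_cancel _⟩
  obtain ⟨r, hr, R, hR⟩ := D.rep (c ^ n)
  -- the class `c` is defined over the algebraic closure of the field generated by the `R i u`
  have hkey : ∀ T : Finset L, (∀ i, R i u ∈ algCl k (T : Set L)) → g ≤ T.card := by
    intro T hT
    let f : algCl k (T : Set L) →ₐ[k] L := (algCl k (T : Set L)).val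
    obtain ⟨V, hV⟩ := exists_isPlaceOver f
    let R' : Fin r → A →ₐ[k] algCl k (T : Set L) := fun i =>
      (R i).codRestrict (algCl k (T : Set L)).toSubalgebra (point_mem hA (R i) (hT i))
    have hR' : ∀ i, f.comp (R' i) = R i := fun i => by ext a; rfl
    let y : D.C (algCl k (T : Set L)) := ∏ i, D.pt (R' i)
    have hy : D.bc f y = c ^ n := by
      rw [hR, map_prod]
      exact Finset.prod_congr rfl fun i _ => by rw [D.bc_pt, hR']
    let x0 := D.sp hV c
    have h1 : (c * (D.bc f x0)⁻¹) ^ n = 1 := by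
      have h0 : (D.bc f x0) ^ n = c ^ n := by
        rw [← map_pow (D.bc f), ← map_pow (D.sp hV), ← hy, D.sp_bc]
      rw [mul_pow, inv_pow, h0, mul_inv_cancel]
    obtain ⟨z, hz⟩ := D.const f n hn _ h1
    have h2 : z = 1 := by
      have h3 := congrArg (D.sp hV) hz
      rw [D.sp_bc, map_mul, map_inv (D.sp hV) (D.bc f x0), D.sp_bc] at h3
      rw [← h3]
      exact mul_inv_cancel _
    have h4 : c = D.bc f x0 := by
      rw [h2, map_one] at hz
      exact mul_inv_eq_one.1 hz
    have h5 : (∏ i, D.pt (ηs i)) * D.bc f x0 = 1 := by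
      rw [← h4]
      exact hc
    obtain ⟨S, hS, hS2⟩ := D.level f x0 (3 * g) le_rfl ηs h5
    have h6 : ∀ i, ηs i u ∈ algCl k ((T ∪ S : Finset L) : Set L) := by
      intro i
      refine algCl_mono ?_ (hS2 i)
      rintro _ (⟨b, rfl⟩ | hb)
      · have h7 : algCl k (T : Set L) ≤ algCl k ((T ∪ S : Finset L) : Set L) := by
          apply algCl_mono
          refine Set.Subset.trans ?_ (subset_algCl _)
          rw [Finset.coe_union]
          exact Set.subset_union_left
        exact h7 b.2
      · apply subset_algCl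
        rw [Finset.coe_union]
        exact Or.inr hb
    have h7 := card_le_of_algebraicIndependent hind h6
    rw [Fintype.card_fin] at h7
    have h8 := Finset.card_union_le T S
    omega
  -- so `r = g` and `R 0 u` is not algebraic over the others
  have hrg : g ≤ r := by
    have h1 := hkey (Finset.univ.image fun i => R i u) (fun i => by
      apply subset_algCl
      simp)
    exact h1.trans (Finset.card_image_le.trans (by simp))
  let i0 : Fin r := ⟨0, by omega⟩
  let T1 : Finset L := (Finset.univ.erase i0).image fun i => R i u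
  have hT1 : T1.card < g := by
    have h1 : T1.card ≤ (Finset.univ.erase i0 : Finset (Fin r)).card := Finset.card_image_le
    rw [Finset.card_erase_of_mem (Finset.mem_univ _), Finset.card_univ, Fintype.card_fin] at h1
    omega
  have hT1m : ∀ i, i ≠ i0 → R i u ∈ algCl k (T1 : Set L) := by
    intro i hi
    apply subset_algCl
    rw [Finset.mem_coe, Finset.mem_image]
    exact ⟨i, Finset.mem_erase.2 ⟨hi, Finset.mem_univ _⟩, rfl⟩
  have hR0 : R i0 u ∉ algCl k (T1 : Set L) := by
    intro h
    refine absurd (hkey T1 fun i => ?_) (not_le.2 hT1)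
    by_cases hi : i = i0
    · rw [hi]
      exact h
    · exact hT1m i hi
  have hroot : ∃ E : D.C L, E ^ n = D.pt (R i0) := by
    let f : algCl k (T1 : Set L) →ₐ[k] L := (algCl k (T1 : Set L)).val
    obtain ⟨V, hV, hVu⟩ := exists_isPlaceOver_not_mem f (x := R i0 u) (by
      intro p hp
      by_contra h0
      exact hR0 (mem_algCl_of_isAlgebraic ⟨p, h0, hp⟩))
    let d := D.sp hV c
    refine ⟨c * (D.bc f d)⁻¹, ?_⟩
    have h1 : D.bc f (D.sp hV (c ^ n)) = ∏ i ∈ Finset.univ.erase i0, D.pt (R i) := by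
      rw [hR, ← Finset.mul_prod_erase _ _ (Finset.mem_univ i0), map_mul, D.sp_pt hV _ hVu,
        one_mul, map_prod, map_prod]
      refine Finset.prod_congr rfl fun i hi => ?_
      have hi' : i ≠ i0 := (Finset.mem_erase.1 hi).1
      let R' : A →ₐ[k] algCl k (T1 : Set L) :=
        (R i).codRestrict (algCl k (T1 : Set L)).toSubalgebra (point_mem hA (R i) (hT1m i hi'))
      have hR' : f.comp R' = R i := by ext a; rfl
      rw [← hR', ← D.bc_pt, D.sp_bc]
    have h2 : (D.bc f d) ^ n = ∏ i ∈ Finset.univ.erase i0, D.pt (R i) := by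
      rw [← map_pow (D.bc f), ← map_pow (D.sp hV), h1]
    rw [mul_pow, inv_pow, h2, hR,
      ← Finset.mul_prod_erase _ _ (Finset.mem_univ i0), mul_assoc, mul_inv_cancel, mul_one]
  obtain ⟨E, hE⟩ := hroot
  have htr : Transcendental k (R i0 u) := by
    rintro ⟨p, hp, hp0⟩
    apply hR0
    refine mem_algCl_of_isAlgebraic ⟨p.map (algebraMap k _), ?_, ?_⟩
    · exact (Polynomial.map_ne_zero_iff (algebraMap k _).injective).2 hp
    · rw [Polynomial.aeval_map_algebraMap]
      exact hp0
  obtain ⟨j, hj⟩ := exists_extension η hη hΩ (R i0) (point_injective hA (R i0) htr)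
  obtain ⟨V, hV⟩ := exists_isPlaceOver j
  refine ⟨D.sp hV E, ?_⟩
  rw [← map_pow, hE, ← hj, ← D.bc_pt, D.sp_bc]

end DivData

end PiP
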