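import Mathlib

/-!
# Solutions of `c_i ^ p = ∑ b_ij c_j` over an algebraically closed field are constant
-/

namespace Pool.Agent.Helper99.PiP

open Finset Polynomial

variable {k Ω : Type*} [Field k] [Field Ω] [Algebra k Ω]

theorem mem_range_of_isAlgebraic [IsAlgClosed k] {x : Ω} (hx : IsAlgebraic k x) :
    x ∈ Set.range (algebraMap k Ω) := by
  have hi : IsIntegral k x := hx.isIntegral
  have h1 : (minpoly k x).degree = 1 := IsAlgClosed.degree_eq_one_of_irreducible k
    (minpoly.irreducible hi)
  exact minpoly.mem_range_of_degree_eq_one k x h1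

theorem isAlgebraic_of_frob_stable (p : ℕ) [hp : Fact p.Prime] [CharP k p]
    (V : Submodule k Ω) [FiniteDimensional k V] (hV : ∀ v ∈ V, v ^ p ∈ V) {v : Ω} (hv : v ∈ V) :
    IsAlgebraic k v := by
  have hpow : ∀ n : ℕ, v ^ p ^ n ∈ V := by
    intro n
    induction n with
    | zero => simpa using hv
    | succ n ih => rw [pow_succ, pow_mul]; exact hV _ ih
  set r := Module.finrank k V with hr
  let f : Fin (r + 1) → V := fun i => ⟨v ^ p ^ (i : ℕ), hpow i⟩
  have hdep : ¬ LinearIndependent k f := by
    intro h
    have := h.fintype_card_le_finrank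
    rw [Fintype.card_fin] at this
    omega
  rw [Fintype.not_linearIndependent_iff] at hdep
  obtain ⟨g, hg, i0, hi0⟩ := hdep
  refine ⟨∑ i : Fin (r + 1), C (g i) * X ^ p ^ (i : ℕ), ?_, ?_⟩
  · intro h0
    have h1 := congrArg (fun q => q.coeff (p ^ (i0 : ℕ))) h0
    simp only [finsetSum_coeff, coeff_C_mul, coeff_X_pow, coeff_zero] at h1
    rw [Finset.sum_eq_single i0] at h1
    · simp at h1
      exact hi0 h1
    · intro j _ hj
      have : p ^ (i0 : ℕ) ≠ p ^ (j : ℕ) := by
        intro h
        exact hj (Fin.ext (Nat.pow_right_injective hp.out.two_le h)).symm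
      rw [if_neg this, mul_zero]
    · intro h
      exact absurd (Finset.mem_univ _) h
  · have h2 := congrArg (Subtype.val) hg
    rw [map_sum]
    simpa [f, Algebra.smul_def] using h2

theorem frob_const (p : ℕ) [hp : Fact p.Prime] [CharP k p] [IsAlgClosed k] {ι : Type*} [Fintype ι]
    (c : ι → Ω) (b : ι → ι → k) (h : ∀ i, c i ^ p = ∑ j, algebraMap k Ω (b i j) * c j) (i : ι) :
    c i ∈ Set.range (algebraMap k Ω) := by
  have hch : CharP Ω p := charP_of_injective_algebraMap (algebraMap k Ω).injective p
  let V : Submodule k Ω := Submodule.span k (Set.range c)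
  have : FiniteDimensional k V := FiniteDimensional.span_of_finite k (Set.finite_range c)
  have hcV : ∀ j, c j ∈ V := fun j => Submodule.subset_span ⟨j, rfl⟩
  have hstab : ∀ v ∈ V, v ^ p ∈ V := by
    intro v hv
    induction hv using Submodule.span_induction with
    | mem x hx =>
      obtain ⟨j, rfl⟩ := hx
      rw [h]
      refine V.sum_mem fun j _ => ?_
      rw [← Algebra.smul_def]
      exact V.smul_mem _ (hcV j)
    | zero => rw [zero_pow hp.out.ne_zero]; exact V.zero_mem
    | add x y _ _ hx hy => rw [add_pow_char]; exact V.add_mem hx hy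
    | smul a x _ hx => rw [_root_.smul_pow]; exact V.smul_mem _ hx
  exact mem_range_of_isAlgebraic (isAlgebraic_of_frob_stable p V hstab (hcV i))

end Pool.Agent.Helper99.PiP
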