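import Mathlib

/-!
# Jacobson's formula for derivations in characteristic `p`

For a derivation `D` of a commutative ring `R` of characteristic `p` and `w : R`,
`(D + w)^p (1) = D^(p-1) w + w^p`.
-/

namespace Pool.Agent.Helper99.PiP

open Finset

variable {k R : Type*} [CommRing k] [CommRing R] [Algebra k R]

/-- The sequence `(D + w)^n (1)`. -/
def jac (D : Derivation k R R) (w : R) : ℕ → R
  | 0 => 1
  | n + 1 => D (jac D w n) + w * jac D w n

/-- The coefficients of `(D + wX)^n (1)` in `R[X]`. -/
def jc (D : Derivation k R R) (w : R) : ℕ → ℕ → R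
  | 0, 0 => 1
  | 0, _ + 1 => 0
  | n + 1, 0 => D (jc D w n 0)
  | n + 1, i + 1 => D (jc D w n (i + 1)) + w * jc D w n i

/-- shifted coefficients -/
def jcp (D : Derivation k R R) (w : R) (n : ℕ) : ℕ → R
  | 0 => 0
  | i + 1 => jc D w n i

variable (D : Derivation k R R) (w : R)

theorem jc_zero (n : ℕ) : jc D w (n + 1) 0 = 0 := by
  induction n with
  | zero => rw [jc, jc, Derivation.map_one_eq_zero]
  | succ n ih => rw [jc, ih, map_zero]

theorem jc_gt (n i : ℕ) (h : n < i) : jc D w n i = 0 := by
  induction n generalizing i with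
  | zero =>
    obtain ⟨j, rfl⟩ : ∃ j, i = j + 1 := ⟨i - 1, by omega⟩
    rw [jc]
  | succ n ih =>
    obtain ⟨j, rfl⟩ : ∃ j, i = j + 1 := ⟨i - 1, by omega⟩
    rw [jc, ih (j + 1) (by omega), ih j (by omega), map_zero, mul_zero, add_zero]

theorem jc_top (n : ℕ) : jc D w n n = w ^ n := by
  induction n with
  | zero => rw [jc, pow_zero]
  | succ n ih => rw [jc, jc_gt D w n (n + 1) (by omega), map_zero, zero_add, ih, pow_succ']

theorem sum_jc (n : ℕ) : ∑ i ∈ range (n + 1), jc D w n i = jac D w n := by
  induction n with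
  | zero => simp [jc, jac]
  | succ n ih =>
    rw [jac, ← ih, sum_range_succ', map_sum, mul_sum]
    simp only [jc]
    rw [sum_add_distrib]
    have h1 : ∑ i ∈ range (n + 1), D (jc D w n (i + 1)) + D (jc D w n 0) =
        ∑ i ∈ range (n + 1), D (jc D w n i) := by
      rw [← sum_range_succ' (fun i => D (jc D w n i)), sum_range_succ,
        jc_gt D w n (n + 1) (by omega), map_zero, add_zero]
    rw [← h1]
    ring

theorem jc_deriv (n i : ℕ) : ((i + 1 : ℕ) : R) * jc D w n (i + 1) =
    ∑ j ∈ range n, ((n.choose (j + 1) : ℕ) : R) * (D^[j] w) * jc D w (n - 1 - j) i := by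
  induction n generalizing i with
  | zero => simp [jc]
  | succ n ih =>
    have hDn : ∀ (m : ℕ) (x : R), D ((m : R) * x) = (m : R) * D x := by
      intro m x
      rw [Derivation.leibniz, Derivation.map_natCast, smul_zero, add_zero, smul_eq_mul]
    have e1 : ((i + 1 : ℕ) : R) * jc D w (n + 1) (i + 1) =
        D (((i + 1 : ℕ) : R) * jc D w n (i + 1)) + w * ((i : ℕ) : R) * jc D w n i +
          w * jc D w n i := by
      rw [jc, hDn]
      push_cast
      ring
    have e2 : w * ((i : ℕ) : R) * jc D w n i =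
        w * ∑ j ∈ range n, ((n.choose (j + 1) : ℕ) : R) * (D^[j] w) *
          jcp D w (n - 1 - j) i := by
      cases i with
      | zero => simp [jcp]
      | succ i' =>
        rw [mul_assoc, ih i']
        rfl
    have e3 : ∀ j ∈ range n, jc D w (n - j) i = D (jc D w (n - 1 - j) i) +
        w * jcp D w (n - 1 - j) i := by
      intro j hj
      rw [mem_range] at hj
      have : n - j = (n - 1 - j) + 1 := by omega
      rw [this]
      cases i with
      | zero => simp [jc, jcp]
      | succ i' => rw [jc]; rfl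
    rw [e1, e2, ih i, map_sum, mul_sum, ← sum_add_distrib]
    have e4 : ∀ j ∈ range n, D (((n.choose (j + 1) : ℕ) : R) * (D^[j] w) * jc D w (n - 1 - j) i) +
        w * (((n.choose (j + 1) : ℕ) : R) * (D^[j] w) *
          jcp D w (n - 1 - j) i) =
        ((n.choose (j + 1) : ℕ) : R) * (D^[j + 1] w) * jc D w (n - 1 - j) i +
        ((n.choose (j + 1) : ℕ) : R) * (D^[j] w) * jc D w (n - j) i := by
      intro j hj
      rw [e3 j hj, mul_assoc ((n.choose (j + 1) : ℕ) : R), hDn, Derivation.leibniz,
        Function.iterate_succ_apply']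
      simp only [smul_eq_mul]
      ring
    rw [sum_congr rfl e4, sum_add_distrib]
    have e5 : ∀ j ∈ range (n + 1), (((n + 1).choose (j + 1) : ℕ) : R) * (D^[j] w) *
        jc D w (n + 1 - 1 - j) i =
        ((n.choose j : ℕ) : R) * (D^[j] w) * jc D w (n - j) i +
        ((n.choose (j + 1) : ℕ) : R) * (D^[j] w) * jc D w (n - j) i := by
      intro j _
      rw [Nat.choose_succ_succ, Nat.add_sub_cancel]
      push_cast
      ring
    rw [sum_congr rfl e5, sum_add_distrib, sum_range_succ' (fun j => ((n.choose j : ℕ) : R) *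
      (D^[j] w) * jc D w (n - j) i), sum_range_succ (fun j => ((n.choose (j + 1) : ℕ) : R) *
      (D^[j] w) * jc D w (n - j) i)]
    have e6 : ∀ j ∈ range n, ((n.choose (j + 1) : ℕ) : R) * (D^[j + 1] w) *
        jc D w (n - (j + 1)) i = ((n.choose (j + 1) : ℕ) : R) * (D^[j + 1] w) *
        jc D w (n - 1 - j) i := by
      intro j _
      have : n - (j + 1) = n - 1 - j := by omega
      rw [this]
    rw [sum_congr rfl e6]
    simp
    ring

/-- **Jacobson's formula.** -/
theorem jacobson (p : ℕ) [hp : Fact p.Prime] [CharP R p] :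
    jac D w p = D^[p - 1] w + w ^ p := by
  have hp1 := hp.out.one_lt
  rw [← sum_jc, sum_range_succ, jc_top]
  congr 1
  have h : ∀ i, ((i + 1 : ℕ) : R) * jc D w p (i + 1) = if i = 0 then D^[p - 1] w else 0 := by
    intro i
    rw [jc_deriv, sum_eq_single_of_mem (p - 1) (by rw [mem_range]; omega)]
    · have : p - 1 + 1 = p := by omega
      rw [this, Nat.choose_self, Nat.sub_self, Nat.cast_one, one_mul]
      cases i with
      | zero => simp [jc]
      | succ i => simp [jc]
    · intro j hj hjp
      rw [mem_range] at hj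
      have : ((p.choose (j + 1) : ℕ) : R) = 0 := by
        rw [CharP.cast_eq_zero_iff R p]
        exact hp.out.dvd_choose_self (by omega) (by omega)
      rw [this, zero_mul, zero_mul]
  have h2 : ∀ i, 1 ≤ i → i + 1 < p → jc D w p (i + 1) = 0 := by
    intro i hi hip
    have h3 := h i
    rw [if_neg (by omega)] at h3
    have hu : IsUnit ((i + 1 : ℕ) : R) := by
      have hco : Nat.Coprime (i + 1) p := by
        rw [Nat.coprime_comm]
        exact (Nat.Prime.coprime_iff_not_dvd hp.out).2 (Nat.not_dvd_of_pos_of_lt (by omega) hip)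
      have h4 := Int.gcd_eq_gcd_ab ((i + 1 : ℕ) : ℤ) (p : ℤ)
      rw [Int.gcd_natCast_natCast, hco] at h4
      have h5 := congrArg (Int.cast : ℤ → R) h4
      push_cast at h5
      rw [CharP.cast_eq_zero R p, zero_mul, add_zero] at h5
      exact IsUnit.of_mul_eq_one _ (by push_cast; exact h5.symm)
    exact (hu.mul_right_eq_zero).1 h3
  obtain ⟨q, hq⟩ : ∃ q, p = q + 2 := ⟨p - 2, by omega⟩
  have h6 : ∑ x ∈ range p, jc D w p x = jc D w p 0 + jc D w p 1 := by
    rw [← sum_range_one (fun x => jc D w p x), ← sum_range_succ]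
    symm
    apply sum_subset
    · intro x hx
      rw [mem_range] at hx ⊢
      omega
    · intro x hx hx2
      rw [mem_range] at hx hx2
      obtain ⟨y, rfl⟩ : ∃ y, x = y + 1 := ⟨x - 1, by omega⟩
      exact h2 y (by omega) hx
  rw [h6]
  have h7 : jc D w p 0 = 0 := by
    rw [hq]; exact jc_zero D w _
  have h8 := h 0
  rw [if_pos rfl] at h8
  rw [h7, zero_add, ← h8]
  simp

end Pool.Agent.Helper99.PiP
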